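import Pool.Agent.H887.BK.D2
import Pool.Agent.H425.Lin

set_option autoImplicit false
set_option linter.unusedSectionVars false
set_option linter.unusedVariables false

/-! Proof of `S_New` of `Pool.Agent.H887.BK.D2`. -/

namespace Pool.Agent.H333.BK

open Pool.Agent.H425 Pool.Agent.H887.BK

section basics

variable {p d : ℕ} [hp : Fact p.Prime] {K R : Type} [Field K] [CommRing R] [IsDomain R]
  (S : Pre p d K R)

theorem not_dvd {x : R} (hx : S.res x ≠ 0) : ¬ S.lam ∣ x := by
  rintro ⟨y, rfl⟩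
  exact hx (by rw [map_mul, S.res_lam, zero_mul])

theorem pow_le {a N : ℕ} {w : R} (hw : S.res w ≠ 0) (h : S.lam ^ N ∣ S.lam ^ a * w) : N ≤ a := by
  by_contra hlt
  obtain ⟨s, rfl⟩ : ∃ s, N = a + (s + 1) := ⟨N - a - 1, by omega⟩
  obtain ⟨t, ht⟩ := h
  rw [pow_add, mul_assoc] at ht
  have h1 := mul_left_cancel₀ (pow_ne_zero _ S.lam_ne) ht
  refine not_dvd S hw ⟨S.lam ^ s * t, ?_⟩
  rw [h1, pow_succ]
  ring

theorem zp_form {y : ℤ_[p]} (hy : y ≠ 0) :
    ∃ w : R, S.zp y = S.lam ^ (d * (p - 1) * y.valuation) * w ∧ S.res w ≠ 0 := by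
  refine ⟨(-1) ^ y.valuation * S.zp (PadicInt.unitCoeff hy), ?_, ?_⟩
  · conv_lhs => rw [PadicInt.unitCoeff_spec hy]
    rw [map_mul, map_pow, map_natCast, pow_mul, S.lam_pow, neg_pow]
    have h1 : ((-1 : R)) ^ y.valuation * (-1) ^ y.valuation = 1 := by
      rw [← mul_pow]; simp
    linear_combination (-(S.zp (PadicInt.unitCoeff hy) * (p : R) ^ y.valuation)) * h1
  · have h1 : IsUnit ((-1 : R) ^ y.valuation * S.zp (PadicInt.unitCoeff hy)) := by
      refine IsUnit.mul ?_ ?_
      · exact (isUnit_one.neg).pow _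
      · exact (PadicInt.unitCoeff hy).isUnit.map S.zp
    exact (h1.map S.res).ne_zero

theorem val_ge (hq : 0 < d * (p - 1)) {y : ℤ_[p]} (hy : y ≠ 0) {E : ℕ}
    (h : S.lam ^ (d * (p - 1) * E) ∣ S.zp y) : E ≤ y.valuation := by
  obtain ⟨w, hw1, hw2⟩ := zp_form S hy
  rw [hw1] at h
  exact Nat.le_of_mul_le_mul_left (pow_le S hw2 h) hq

theorem eq_zero_of {y : ℤ_[p]} (h : ∀ N, S.lam ^ N ∣ S.zp y) : y = 0 := by
  by_contra hy
  obtain ⟨w, hw1, hw2⟩ := zp_form S hy
  have := h (d * (p - 1) * y.valuation + 1)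
  rw [hw1] at this
  have := pow_le S hw2 this
  omega

theorem val_eq (hq : 0 < d * (p - 1)) {y : ℤ_[p]} {E : ℕ} {w' : R} (hw' : S.res w' ≠ 0)
    (h : S.zp y = S.lam ^ (d * (p - 1) * E) * w') : y ≠ 0 ∧ y.valuation = E := by
  have hy : y ≠ 0 := by
    rintro rfl
    rw [map_zero] at h
    have h1 : w' = 0 := (mul_eq_zero.1 h.symm).resolve_left (pow_ne_zero _ S.lam_ne)
    exact hw' (by rw [h1, map_zero])
  refine ⟨hy, ?_⟩
  obtain ⟨w, hw1, hw2⟩ := zp_form S hy
  have h1 : E ≤ y.valuation := val_ge S hq hy ⟨w', h⟩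
  have h2 : d * (p - 1) * y.valuation ≤ d * (p - 1) * E :=
    pow_le S hw' ⟨w, by rw [← h, hw1]⟩
  have h3 := Nat.le_of_mul_le_mul_left h2 hq
  omega

end basics

section seqs

/-- the sequence given by Newton's recursion -/
noncomputable def cseq (s : ℕ → ℚ) : ℕ → ℚ
  | 0 => 1
  | (k + 1) => -(∑ i : Fin (k + 1), s (i.1 + 1) * cseq s (k - i.1)) / ((k : ℚ) + 1)
termination_by k => k
decreasing_by omega

theorem cseq_zero (s : ℕ → ℚ) : cseq s 0 = 1 := by rw [cseq]

theorem cseq_succ (s : ℕ → ℚ) (k : ℕ) : ((k : ℚ) + 1) * cseq s (k + 1) =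
    -∑ i ∈ Finset.range (k + 1), s (i + 1) * cseq s (k - i) := by
  have hk : (k : ℚ) + 1 ≠ 0 := by positivity
  rw [cseq, mul_div_cancel₀ _ hk, Finset.sum_range]

end seqs

section mat

variable {m A : Type} [Fintype m] [DecidableEq m] [CommRing A]

theorem minor (q : A) (h : m → ℕ) (b : Matrix m m A) (s : Finset m) :
    (((Matrix.of fun u v => q ^ (h u + 1) * b u v) : Matrix m m A).submatrix
      (Subtype.val : {x // x ∈ s} → m) (Subtype.val : {x // x ∈ s} → m)).det =
    q ^ (∑ u ∈ s, (h u + 1)) * (b.submatrix (Subtype.val : {x // x ∈ s} → m)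
      (Subtype.val : {x // x ∈ s} → m)).det := by
  have h1 : (((Matrix.of fun u v => q ^ (h u + 1) * b u v) : Matrix m m A).submatrix
      (Subtype.val : {x // x ∈ s} → m) (Subtype.val : {x // x ∈ s} → m)) =
      Matrix.of fun (i j : {x // x ∈ s}) => q ^ (h i.1 + 1) *
        (b.submatrix (Subtype.val : {x // x ∈ s} → m) (Subtype.val : {x // x ∈ s} → m)) i j := rfl
  rw [h1, Matrix.det_mul_column]
  congr 1
  rw [← Finset.prod_pow_eq_pow_sum]
  exact Finset.prod_coe_sort s (fun u => q ^ (h u + 1))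

theorem cs_big (β : Matrix m m A) (k : ℕ) (hk : Fintype.card m < k) : (cs β).coeff k = 0 := by
  rw [cs_coeff, Finset.powersetCard_eq_empty.2 (by rwa [Finset.card_univ]), Finset.sum_empty,
    mul_zero]

/-- weights of subsets -/
theorem wt_lower (h : m → ℕ) (s : Finset m) (j : ℕ) :
    j * s.card + s.card ≤ ∑ u ∈ s, (h u + 1) + ∑ u, (j - h u) := by
  have h1 : ∑ u ∈ s, (j - h u) ≤ ∑ u, (j - h u) :=
    Finset.sum_le_sum_of_subset (Finset.subset_univ s)
  have h2 : ∑ u ∈ s, (h u + 1) + ∑ u ∈ s, (j - h u) = ∑ u ∈ s, (h u + 1 + (j - h u)) :=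
    Finset.sum_add_distrib.symm
  have h3 : ∑ _u ∈ s, (j + 1) ≤ ∑ u ∈ s, (h u + 1 + (j - h u)) :=
    Finset.sum_le_sum fun u _ => by omega
  rw [Finset.sum_const, smul_eq_mul] at h3
  have h4 : s.card * (j + 1) = j * s.card + s.card := by ring
  omega

theorem wt_strict (h : m → ℕ) (j : ℕ) (s : Finset m)
    (hs : s.card = (Finset.univ.filter (fun u => h u < j)).card)
    (hne : s ≠ Finset.univ.filter (fun u => h u < j)) :
    ∑ u ∈ Finset.univ.filter (fun u => h u < j), (h u + 1) < ∑ u ∈ s, (h u + 1) := by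
  set J := Finset.univ.filter (fun u => h u < j) with hJ
  have e1 : ∑ u ∈ s, (h u + 1) = ∑ u ∈ s \ J, (h u + 1) + ∑ u ∈ s ∩ J, (h u + 1) := by
    rw [add_comm, Finset.sum_inter_add_sum_sdiff]
  have e2 : ∑ u ∈ J, (h u + 1) = ∑ u ∈ J \ s, (h u + 1) + ∑ u ∈ s ∩ J, (h u + 1) := by
    rw [Finset.inter_comm, add_comm, Finset.sum_inter_add_sum_sdiff]
  have c1 : (s \ J).card + (s ∩ J).card = s.card := Finset.card_sdiff_add_card_inter s J
  have c2 : (J \ s).card + (J ∩ s).card = J.card := Finset.card_sdiff_add_card_inter J s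
  rw [Finset.inter_comm] at c2
  have h1 : ∑ _u ∈ s \ J, (j + 1) ≤ ∑ u ∈ s \ J, (h u + 1) :=
    Finset.sum_le_sum fun u hu => by
      rw [Finset.mem_sdiff, hJ, Finset.mem_filter] at hu
      have : ¬ h u < j := fun hlt => hu.2 ⟨Finset.mem_univ _, hlt⟩
      omega
  have h2 : ∑ u ∈ J \ s, (h u + 1) ≤ ∑ _u ∈ J \ s, j :=
    Finset.sum_le_sum fun u hu => by
      rw [Finset.mem_sdiff, hJ, Finset.mem_filter] at hu
      omega
  rw [Finset.sum_const, smul_eq_mul] at h1 h2
  have hpos : 0 < (s \ J).card := by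
    rw [Finset.card_pos]
    by_contra hemp
    rw [Finset.not_nonempty_iff_eq_empty, Finset.sdiff_eq_empty_iff_subset] at hemp
    exact hne (Finset.eq_of_subset_of_card_le hemp hs.ge)
  have hcc : (s \ J).card = (J \ s).card := by omega
  rw [e1, e2, hcc] at *
  nlinarith

end mat

theorem h_New : S_New := by
  intro p d _ K R _ _ _ _ S m _ _ h St bb hd hm hH hdet
  have hp : p.Prime := Fact.out
  have hp0 : (p : ℚ) ≠ 0 := by exact_mod_cast hp.ne_zero
  have hq : 0 < d * (p - 1) := Nat.mul_pos hd (Nat.sub_pos_of_lt hp.one_lt)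
  choose b hb1 hb2 using hH
  set Mt : ℕ → Matrix m m R := fun N => Matrix.of fun u v => (-(p : R)) ^ (h u + 1) * b N u v
    with hMt
  set e : ℕ → ℕ → R := fun N k => (cs (Mt N)).coeff k with he
  -- inverses
  have hinv : ∀ a : ℕ, 1 ≤ a → ∃ g : ℤ_[p], ((p : ℤ_[p]) ^ a - 1) * g = 1 := by
    intro a ha
    have h1 : IsUnit (1 - (p : ℤ_[p]) ^ a) := by
      rcases IsLocalRing.isUnit_or_isUnit_one_sub_self ((p : ℤ_[p]) ^ a) with h | h
      · exfalso
        rw [isUnit_pow_iff (by omega)] at h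
        exact PadicInt.p_nonunit h
      · exact h
    obtain ⟨g, hg⟩ := h1.exists_right_inv
    exact ⟨-g, by linear_combination hg⟩
  choose! G hG using hinv
  set T : ℕ → ℤ_[p] := fun a => (St a : ℤ_[p]) * G a with hT
  have hT1 : ∀ a, 1 ≤ a → ∀ N, ∃ z, S.zp (T a) = ((Mt N) ^ a).trace + S.lam ^ N * z := by
    intro a ha N
    obtain ⟨z, hz⟩ := hb2 N a ha
    refine ⟨S.zp (G a) * z, ?_⟩
    have h1 := congrArg S.zp (hG a ha)
    rw [map_mul, map_sub, map_pow, map_natCast, map_one] at h1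
    rw [hT]
    simp only [map_mul, map_intCast]
    rw [hz]
    linear_combination (((Mt N) ^ a).trace) * h1
  have hT2 : ∀ a, 1 ≤ a → ((T a : ℤ_[p]) : ℚ_[p]) =
      (((St a : ℚ) / ((p : ℚ) ^ a - 1) : ℚ) : ℚ_[p]) := by
    intro a ha
    have h1 := congrArg (fun x : ℤ_[p] => (x : ℚ_[p])) (hG a ha)
    simp only [PadicInt.coe_mul, PadicInt.coe_sub, PadicInt.coe_pow, PadicInt.coe_natCast,
      PadicInt.coe_one] at h1
    have h2 : ((p : ℚ_[p]) ^ a - 1) ≠ 0 := fun h0 => by
      rw [h0, zero_mul] at h1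
      exact zero_ne_one h1
    rw [hT]
    simp only [PadicInt.coe_mul, PadicInt.coe_intCast]
    push_cast
    rw [eq_div_iff h2]
    linear_combination (St a : ℚ_[p]) * h1
  -- the sequence
  set s : ℕ → ℚ := fun a => (St a : ℚ) / (((p : ℚ) ^ a - 1) * (p : ℚ) ^ a) with hs
  set c : ℕ → ℚ := cseq s with hc
  have hc0 : c 0 = 1 := cseq_zero s
  have hcs : ∀ k : ℕ, ((k : ℚ) + 1) * c (k + 1) =
      -∑ i ∈ Finset.range (k + 1), s (i + 1) * c (k - i) := cseq_succ s
  have hCs : ∀ k : ℕ, ((k : ℚ) + 1) * ((p : ℚ) ^ (k + 1) * c (k + 1)) =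
      -∑ i ∈ Finset.range (k + 1), ((St (i + 1) : ℚ) / ((p : ℚ) ^ (i + 1) - 1)) *
        ((p : ℚ) ^ (k - i) * c (k - i)) := by
    intro k
    have h1 : ((k : ℚ) + 1) * ((p : ℚ) ^ (k + 1) * c (k + 1)) =
        (p : ℚ) ^ (k + 1) * (((k : ℚ) + 1) * c (k + 1)) := by ring
    rw [h1, hcs, mul_neg, Finset.mul_sum]
    congr 1
    refine Finset.sum_congr rfl fun i hi => ?_
    rw [Finset.mem_range] at hi
    have h2 : (p : ℚ) ^ (k + 1) = (p : ℚ) ^ (k - i) * (p : ℚ) ^ (i + 1) := by
      rw [← pow_add]; congr 1; omega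
    have h3 : (p : ℚ) ^ (i + 1) ≠ 0 := pow_ne_zero _ hp0
    rw [h2, hs]
    simp only
    rw [← div_div]
    field_simp
  -- the main claim
  have main : ∀ k : ℕ, ∃ y : ℤ_[p], (y : ℚ_[p]) = (((p : ℚ) ^ k * c k : ℚ) : ℚ_[p]) ∧
      (∀ N, ∃ z, S.zp y = e N k + S.lam ^ N * z) ∧ (Fintype.card m < k → y = 0) := by
    intro k
    induction k using Nat.strong_induction_on with
    | _ k ih =>
      rcases k with _ | k
      · refine ⟨1, by rw [hc0]; simp, fun N => ⟨0, ?_⟩, fun hlt => absurd hlt (Nat.not_lt_zero _)⟩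
        rw [he]
        simp only [cs_zero, map_one, mul_zero, add_zero]
      · have ih' : ∀ i, i ≤ k → ∃ y : ℤ_[p], (y : ℚ_[p]) = (((p : ℚ) ^ i * c i : ℚ) : ℚ_[p]) ∧
            (∀ N, ∃ z, S.zp y = e N i + S.lam ^ N * z) ∧ (Fintype.card m < i → y = 0) :=
          fun i hi => ih i (by omega)
        choose! y hy1 hy2 hy3 using ih'
        set w : ℤ_[p] := -∑ i ∈ Finset.range (k + 1), T (i + 1) * y (k - i) with hw
        have hwa : (w : ℚ_[p]) = (((k : ℚ) + 1) * ((p : ℚ) ^ (k + 1) * c (k + 1)) : ℚ) := by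
          rw [hCs, hw, PadicInt.coe_neg, PadicInt.coe_sum]
          push_cast
          congr 1
          refine Finset.sum_congr rfl fun i hi => ?_
          have h1 := hT2 (i + 1) (by omega)
          have h2 := hy1 (k - i) (Nat.sub_le _ _)
          push_cast at h1 h2
          rw [h1, h2]
        have hwb : ∀ N, ∃ z, S.zp w = ((k : R) + 1) * e N (k + 1) + S.lam ^ N * z := by
          intro N
          have h1 : ∀ i, ∃ z, S.zp (T (i + 1)) = ((Mt N) ^ (i + 1)).trace + S.lam ^ N * z :=
            fun i => hT1 (i + 1) (by omega) N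
          have h2 : ∀ i, ∃ z, S.zp (y (k - i)) = e N (k - i) + S.lam ^ N * z :=
            fun i => hy2 (k - i) (Nat.sub_le _ _) N
          choose z1 hz1 using h1
          choose z2 hz2 using h2
          have h3 := newton (Mt N) k
          refine ⟨-∑ i ∈ Finset.range (k + 1), (((Mt N) ^ (i + 1)).trace * z2 i +
            z1 i * S.zp (y (k - i))), ?_⟩
          rw [hw, map_neg, map_sum]
          push_cast at h3
          have h4 : ((k : R) + 1) * e N (k + 1) = -∑ i ∈ Finset.range (k + 1),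
              ((Mt N) ^ (i + 1)).trace * e N (k - i) := h3
          rw [h4, mul_neg, Finset.mul_sum, ← neg_add, ← Finset.sum_add_distrib]
          congr 1
          refine Finset.sum_congr rfl fun i _ => ?_
          rw [map_mul]
          linear_combination S.zp (y (k - i)) * hz1 i + ((Mt N) ^ (i + 1)).trace * hz2 i
        by_cases hk : k + 1 ≤ Fintype.card m
        · have hu : IsUnit (((k + 1 : ℕ) : ℤ_[p])) := by
            rw [PadicInt.isUnit_iff, PadicInt.norm_natCast_eq_one_iff]
            exact (Nat.Prime.coprime_iff_not_dvd hp).2 fun hdv =>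
              absurd (Nat.le_of_dvd (by omega) hdv) (by omega)
          obtain ⟨g, hg⟩ := hu.exists_right_inv
          refine ⟨g * w, ?_, fun N => ?_, fun hlt => absurd hlt (by omega)⟩
          · have h1 := congrArg (fun x : ℤ_[p] => (x : ℚ_[p])) hg
            simp only [PadicInt.coe_mul, PadicInt.coe_natCast, PadicInt.coe_one] at h1
            rw [PadicInt.coe_mul, hwa]
            push_cast at h1 ⊢
            linear_combination ((p : ℚ_[p]) ^ (k + 1) * (c (k + 1) : ℚ_[p])) * h1
          · obtain ⟨z, hz⟩ := hwb N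
            have h1 := congrArg S.zp hg
            rw [map_mul, map_natCast, map_one] at h1
            push_cast at h1
            refine ⟨S.zp g * z, ?_⟩
            rw [map_mul, hz]
            linear_combination (e N (k + 1)) * h1
        · have hw0 : w = 0 := by
            refine eq_zero_of S fun N => ?_
            obtain ⟨z, hz⟩ := hwb N
            rw [hz, he]
            simp only
            rw [cs_big _ _ (by omega), mul_zero, zero_add]
            exact dvd_mul_right _ _
          refine ⟨0, ?_, fun N => ⟨0, ?_⟩, fun _ => rfl⟩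
          · rw [hw0, PadicInt.coe_zero] at hwa
            have h1 : ((k : ℚ) + 1) * ((p : ℚ) ^ (k + 1) * c (k + 1)) = 0 := by
              exact_mod_cast hwa.symm
            have h2 : (k : ℚ) + 1 ≠ 0 := by positivity
            rw [(mul_eq_zero.1 h1).resolve_left h2]
            simp
          · rw [he]
            simp only
            rw [cs_big _ _ (by omega), map_zero, mul_zero, add_zero]
  choose y hy1 hy2 hy3 using main
  have hyc : ∀ k, y k = 0 ↔ c k = 0 := by
    intro k
    have h1 := hy1 k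
    constructor
    · intro h0
      rw [h0, PadicInt.coe_zero] at h1
      have h2 : (p : ℚ) ^ k * c k = 0 := by exact_mod_cast h1.symm
      exact (mul_eq_zero.1 h2).resolve_left (pow_ne_zero _ hp0)
    · intro h0
      rw [h0, mul_zero, Rat.cast_zero] at h1
      exact PadicInt.coe_eq_zero.1 h1
  have hval : ∀ k, c k ≠ 0 → ((y k).valuation : ℤ) = k + padicValRat p (c k) := by
    intro k hk
    rw [← PadicInt.valuation_coe, hy1, Padic.valuation_ratCast,
      padicValRat.mul (pow_ne_zero _ hp0) hk, padicValRat.pow, padicValRat.self hp.one_lt,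
      mul_one]
  have hek : ∀ N k, e N k = (-1) ^ k * ∑ s ∈ Finset.univ.powersetCard k,
      S.lam ^ (d * (p - 1) * ∑ u ∈ s, (h u + 1)) *
        ((b N).submatrix (Subtype.val : {x // x ∈ s} → m) (Subtype.val : {x // x ∈ s} → m)).det := by
    intro N k
    rw [he]
    simp only
    rw [cs_coeff]
    congr 1
    refine Finset.sum_congr rfl fun s _ => ?_
    rw [hMt]
    simp only
    rw [minor, pow_mul, S.lam_pow]
  refine ⟨c, hc0, hcs, ?_, ?_, ?_⟩
  · intro k hk
    exact (hyc k).1 (hy3 k hk)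
  · intro k j hk
    have hy0 : y k ≠ 0 := fun h0 => hk ((hyc k).1 h0)
    set E : ℕ := j * k + k - ∑ u, (j - h u) with hE
    have hdv : S.lam ^ (d * (p - 1) * E) ∣ S.zp (y k) := by
      obtain ⟨z, hz⟩ := hy2 k (d * (p - 1) * E)
      rw [hz]
      refine dvd_add ?_ (dvd_mul_right _ _)
      rw [hek]
      refine Dvd.dvd.mul_left (Finset.dvd_sum fun s hs => ?_) _
      rw [Finset.mem_powersetCard] at hs
      refine Dvd.dvd.mul_right (pow_dvd_pow _ (Nat.mul_le_mul_left _ ?_)) _
      have := wt_lower h s j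
      rw [hs.2] at this
      omega
    have h1 := val_ge S hq hy0 hdv
    have h2 := hval k hk
    have h3 : j * k + k ≤ (y k).valuation + ∑ u, (j - h u) := by omega
    have h4 : ((j * k : ℕ) : ℤ) + k ≤ (y k).valuation + ((∑ u, (j - h u) : ℕ) : ℤ) := by
      exact_mod_cast h3
    rw [h2] at h4
    linarith
  · intro j
    set J := Finset.univ.filter (fun u => h u < j) with hJ
    set k := J.card with hk
    set E0 := ∑ u ∈ J, (h u + 1) with hE0
    obtain ⟨z, hz⟩ := hy2 k (d * (p - 1) * E0 + 1)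
    set N := d * (p - 1) * E0 + 1 with hN
    set w' : R := (-1) ^ k * ∑ s ∈ Finset.univ.powersetCard k,
      S.lam ^ (d * (p - 1) * (∑ u ∈ s, (h u + 1) - E0)) *
        ((b N).submatrix (Subtype.val : {x // x ∈ s} → m)
          (Subtype.val : {x // x ∈ s} → m)).det with hw'
    have hge : ∀ s ∈ Finset.univ.powersetCard k, s ≠ J → E0 < ∑ u ∈ s, (h u + 1) := by
      intro s hs hne
      rw [Finset.mem_powersetCard] at hs
      exact wt_strict h j s hs.2 hne
    have hew : e N k = S.lam ^ (d * (p - 1) * E0) * w' := by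
      rw [hek, hw', mul_left_comm]
      refine congrArg (fun x => (-1) ^ k * x) ?_
      rw [Finset.mul_sum]
      refine Finset.sum_congr rfl fun s hs => ?_
      have h6 : E0 + (∑ u ∈ s, (h u + 1) - E0) = ∑ u ∈ s, (h u + 1) := by
        by_cases hsJ : s = J
        · rw [hsJ]; omega
        · have := hge s hs hsJ; omega
      rw [← mul_assoc, ← pow_add, ← mul_add, h6]
    have hJmem : J ∈ Finset.univ.powersetCard k :=
      Finset.mem_powersetCard.2 ⟨Finset.subset_univ _, rfl⟩
    have hresw : S.res w' ≠ 0 := by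
      rw [hw', map_mul, map_sum, Finset.sum_eq_single J]
      · rw [show ∑ u ∈ J, (h u + 1) - E0 = 0 from Nat.sub_self _, mul_zero, pow_zero, one_mul,
          map_pow, map_neg, map_one, RingHom.map_det]
        have e1 : S.res.mapMatrix ((b N).submatrix (Subtype.val : {x // x ∈ J} → m)
            (Subtype.val : {x // x ∈ J} → m)) =
            bb.submatrix (Subtype.val : {x // x ∈ J} → m) (Subtype.val : {x // x ∈ J} → m) := by
          ext u v
          exact hb1 N u v
        rw [e1]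
        have e2 : ∀ x, x ∈ J ↔ h x < j := fun x => by rw [hJ, Finset.mem_filter]; simp
        have e3 : bb.submatrix (Subtype.val : {x // x ∈ J} → m) (Subtype.val : {x // x ∈ J} → m) =
            (bb.submatrix (Subtype.val : {u : m // h u < j} → m)
              (Subtype.val : {u : m // h u < j} → m)).submatrix
              (Equiv.subtypeEquivRight e2) (Equiv.subtypeEquivRight e2) := by
          ext u v
          rfl
        rw [e3, Matrix.det_submatrix_equiv_self]
        exact mul_ne_zero (pow_ne_zero _ (neg_ne_zero.2 one_ne_zero)) (hdet j)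
      · intro s hs hne
        have := hge s hs hne
        rw [map_mul, map_pow, S.res_lam, zero_pow, zero_mul]
        exact (Nat.mul_pos hq (by omega)).ne'
      · intro hn
        exact absurd hJmem hn
    have hfin := val_eq S hq (y := y k) (E := E0) (w' := w' + S.lam * z)
      (by
        have h5 : S.res (w' + S.lam * z) = S.res w' := by
          rw [RingHom.map_add, RingHom.map_mul S.res S.lam z, S.res_lam, zero_mul, add_zero]
        rw [h5]; exact hresw)
      (by rw [hz, hew, hN, pow_succ]; ring)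
    have hck : c k ≠ 0 := fun h0 => hfin.1 ((hyc k).2 h0)
    refine ⟨hck, ?_⟩
    have h1 := hval k hck
    rw [hfin.2] at h1
    have h2 : E0 = ∑ u ∈ J, h u + k := by
      rw [hE0, Finset.sum_add_distrib, Finset.sum_const, smul_eq_mul, mul_one]
    rw [h2] at h1
    push_cast at h1 ⊢
    linarith

end Pool.Agent.H333.BK
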