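import Pool.Agent.H887.BK.D2

set_option autoImplicit false
set_option linter.unusedSectionVars false
set_option linter.unusedVariables false

/-! Proof of `S_Unit` of `Pool.Agent.H887.BK.D2`. -/

namespace Pool.Agent.H333.BK

open Pool.Agent.H425 Pool.Agent.H887.BK Polynomial

theorem dvd_of_resMap (p D : ℕ) [Fact p.Prime] (K : Type) [Field K] [CharP K p]
    [PerfectRing K p] (hD : 0 < D) (x : Constr.RR p D K)
    (hx : Constr.resMap p D K hD x = 0) : AdjoinRoot.root (Constr.eis p D K) ∣ x := by
  revert hx
  induction x using AdjoinRoot.induction_on with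
  | ih g =>
    intro hg
    rw [Constr.resMap, AdjoinRoot.lift_mk] at hg
    rw [eval₂_at_zero] at hg
    have h1 : (p : WittVector p K) ∣ g.coeff 0 := by
      rw [← Ideal.mem_span_singleton, ← WittVector.ker_constantCoeff]
      exact hg
    obtain ⟨c, hc⟩ := h1
    have h2 : AdjoinRoot.mk (Constr.eis p D K) g =
        AdjoinRoot.root _ * AdjoinRoot.mk _ g.divX + AdjoinRoot.of _ (g.coeff 0) := by
      conv_lhs => rw [← divX_mul_X_add g]
      rw [map_add, map_mul, AdjoinRoot.mk_X, AdjoinRoot.mk_C, mul_comm (AdjoinRoot.mk _ _)]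
    rw [h2]
    refine dvd_add (dvd_mul_right _ _) ?_
    rw [hc, map_mul, map_natCast]
    refine Dvd.dvd.mul_right ?_ _
    rw [← dvd_neg, ← Constr.root_pow]
    exact dvd_pow_self _ hD.ne'

theorem resMap_surj (p D : ℕ) [Fact p.Prime] (K : Type) [Field K] [CharP K p]
    [PerfectRing K p] (hD : 0 < D) : Function.Surjective (Constr.resMap p D K hD) := by
  intro a
  refine ⟨AdjoinRoot.of _ (WittVector.teichmuller p a), ?_⟩
  rw [Constr.resMap, AdjoinRoot.lift_of]
  exact WittVector.teichmuller_coeff_zero p a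

theorem h_Unit : S_Unit := by
  intro p D _ K _ _ _ hD x hx
  by_contra hnu
  obtain ⟨M, hM, hxM⟩ := exists_max_ideal_of_mem_nonunits hnu
  have hmonic : (Constr.eis p D K).Monic := monic_X_pow_add_C _ hD.ne'
  haveI : Module.Finite (WittVector p K) (Constr.RR p D K) := hmonic.finite_adjoinRoot
  haveI : Algebra.IsIntegral (WittVector p K) (Constr.RR p D K) := Algebra.IsIntegral.of_finite _ _
  have hmax : (M.comap (algebraMap (WittVector p K) (Constr.RR p D K))).IsMaximal :=
    Ideal.isMaximal_comap_of_isIntegral_of_isMaximal M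
  have hp : (p : WittVector p K) ∈ M.comap (algebraMap (WittVector p K) (Constr.RR p D K)) := by
    rw [IsLocalRing.eq_maximalIdeal hmax, IsLocalRing.mem_maximalIdeal]
    exact (WittVector.irreducible p (k := K)).not_isUnit
  rw [Ideal.mem_comap, map_natCast] at hp
  have hroot : AdjoinRoot.root (Constr.eis p D K) ∈ M := by
    refine hM.isPrime.mem_of_pow_mem D ?_
    rw [Constr.root_pow]
    exact M.neg_mem hp
  have hle : RingHom.ker (Constr.resMap p D K hD) ≤ M := by
    intro y hy
    obtain ⟨z, rfl⟩ := dvd_of_resMap p D K hD y hy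
    exact M.mul_mem_right _ hroot
  have hker : (RingHom.ker (Constr.resMap p D K hD)).IsMaximal :=
    RingHom.ker_isMaximal_of_surjective _ (resMap_surj p D K hD)
  have heq := hker.eq_of_le hM.ne_top hle
  rw [← heq] at hxM
  exact hx hxM

end Pool.Agent.H333.BK
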